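import Mathlib
import Pool.Agent.BRW.Defs
import Pool.Agent.BRW.St
import Pool.Agent.DQE.Defs
import Pool.Agent.DQE.St

set_option autoImplicit false

/-!
# Bounded rank and quantifier depth: the join of the types of level `q` and of `c`

For a coherent configuration `c` with at most `R` classes there is `q ≤ R` for which the finest
common coarsening of `c` and of the types of level `q` is coherent.
-/

namespace Pool.Agent.BRD

open Pool.Agent.BRW Pool.Agent.WLE Pool.Agent.DQE

/-- The types of level `q` without parameters. -/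
abbrev t0 {V : Type} (G : SimpleGraph V) (q : ℕ) : V → V → Set (V × V) :=
  tc G q 0 (fun i => i.elim0)

/-- Equal for one of two colourings. -/
def rr {V κ₁ κ₂ : Type} (c₁ : V → V → κ₁) (c₂ : V → V → κ₂) : V × V → V × V → Prop :=
  fun p q => c₁ p.1 p.2 = c₁ q.1 q.2 ∨ c₂ p.1 p.2 = c₂ q.1 q.2

/-- The finest common coarsening. -/
def jn {V κ₁ κ₂ : Type} (c₁ : V → V → κ₁) (c₂ : V → V → κ₂) : V → V → Quot (rr c₁ c₂) :=
  fun x y => Quot.mk _ (x, y)

theorem jn_key {V κ₁ κ₂ β : Type} (c₁ : V → V → κ₁) (c₂ : V → V → κ₂) (F : V → V → β)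
    (f1 : ∀ x y x' y', c₁ x y = c₁ x' y' → F x y = F x' y')
    (f2 : ∀ x y x' y', c₂ x y = c₂ x' y' → F x y = F x' y') (x y x' y' : V)
    (h : jn c₁ c₂ x y = jn c₁ c₂ x' y') : F x y = F x' y' := by
  have hr : ∀ p q : V × V, rr c₁ c₂ p q → F p.1 p.2 = F q.1 q.2 := by
    intro p q hpq
    rcases hpq with hpq | hpq
    · exact f1 _ _ _ _ hpq
    · exact f2 _ _ _ _ hpq
  exact congrArg (Quot.lift (fun p : V × V => F p.1 p.2) hr) h

theorem jn_left {V κ₁ κ₂ : Type} (c₁ : V → V → κ₁) (c₂ : V → V → κ₂) : Ref c₁ (jn c₁ c₂) :=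
  fun _ _ _ _ h => Quot.sound (Or.inl h)

theorem jn_right {V κ₁ κ₂ : Type} (c₁ : V → V → κ₁) (c₂ : V → V → κ₂) : Ref c₂ (jn c₁ c₂) :=
  fun _ _ _ _ h => Quot.sound (Or.inr h)

theorem ncard_ref {V κ κ' : Type} [Finite V] (c' : V → V → κ') (c : V → V → κ)
    (h : Ref c' c) : (Set.range (fun p : V × V => c p.1 p.2)).ncard ≤
      (Set.range (fun p : V × V => c' p.1 p.2)).ncard := by
  classical
  rcases isEmpty_or_nonempty V with hV | ⟨⟨v⟩⟩
  · have : Set.range (fun p : V × V => c p.1 p.2) = ∅ := by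
      rw [Set.range_eq_empty_iff]
      exact ⟨fun p => hV.false p.1⟩
    rw [this, Set.ncard_empty]
    exact Nat.zero_le _
  · let g : κ' → κ := fun k => if h : ∃ p : V × V, c' p.1 p.2 = k then
      c h.choose.1 h.choose.2 else c v v
    have hg : ∀ p : V × V, g (c' p.1 p.2) = c p.1 p.2 := by
      intro p
      have hex : ∃ q : V × V, c' q.1 q.2 = c' p.1 p.2 := ⟨p, rfl⟩
      have : g (c' p.1 p.2) = c hex.choose.1 hex.choose.2 := dif_pos hex
      rw [this]
      exact h _ _ _ _ hex.choose_spec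
    have hsub : Set.range (fun p : V × V => c p.1 p.2) ⊆
        g '' Set.range (fun p : V × V => c' p.1 p.2) := by
      rintro _ ⟨p, rfl⟩
      exact ⟨_, ⟨p, rfl⟩, hg p⟩
    exact (Set.ncard_le_ncard hsub ((Set.finite_range _).image _)).trans
      (Set.ncard_image_le (Set.finite_range _))

theorem ref_of_ncard {V κ κ' : Type} [Finite V] (c' : V → V → κ') (c : V → V → κ)
    (h : Ref c' c) (hN : (Set.range (fun p : V × V => c' p.1 p.2)).ncard ≤
      (Set.range (fun p : V × V => c p.1 p.2)).ncard) : Ref c c' := by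
  classical
  intro x y x' y' hxy
  by_contra hne
  let g : κ' → κ := fun k => if h : ∃ p : V × V, c' p.1 p.2 = k then
      c h.choose.1 h.choose.2 else c x y
  have hg : ∀ p : V × V, g (c' p.1 p.2) = c p.1 p.2 := by
    intro p
    have hex : ∃ q : V × V, c' q.1 q.2 = c' p.1 p.2 := ⟨p, rfl⟩
    have : g (c' p.1 p.2) = c hex.choose.1 hex.choose.2 := dif_pos hex
    rw [this]
    exact h _ _ _ _ hex.choose_spec
  have hsub : Set.range (fun p : V × V => c p.1 p.2) ⊆
      g '' (Set.range (fun p : V × V => c' p.1 p.2) \ {c' x y}) := by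
    rintro _ ⟨p, rfl⟩
    by_cases hp : c' p.1 p.2 = c' x y
    · refine ⟨c' x' y', ⟨⟨(x', y'), rfl⟩, fun h => hne h.symm⟩, ?_⟩
      have h1 := hg (x', y')
      have h2 : c p.1 p.2 = c x y := h _ _ _ _ hp
      simp only at h1 h2 ⊢
      rw [h1, h2, hxy]
    · exact ⟨_, ⟨⟨p, rfl⟩, hp⟩, hg p⟩
  have hfin : (Set.range (fun p : V × V => c' p.1 p.2)).Finite := Set.finite_range _
  have h1 := (Set.ncard_le_ncard hsub (hfin.sdiff.image _)).trans
    (Set.ncard_image_le hfin.sdiff)
  have h2 : (Set.range (fun p : V × V => c' p.1 p.2) \ {c' x y}).ncard <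
      (Set.range (fun p : V × V => c' p.1 p.2)).ncard :=
    Set.ncard_sdiff_singleton_lt_of_mem ⟨(x, y), rfl⟩ hfin
  omega

theorem jod (hTCP : StmtTCP) (hCNT : StmtCNT) {V κ : Type} [Finite V] (G : SimpleGraph V)
    (c : V → V → κ) (R : ℕ) (hc : Coherent c)
    (hr : (Set.range (fun p : V × V => c p.1 p.2)).ncard ≤ R)
    (hG : ∀ x y x' y', c x y = c x' y' → (G.Adj x y ↔ G.Adj x' y')) :
    ∃ q : ℕ, q ≤ R ∧ ∃ (κ₀ : Type) (c₀ : V → V → κ₀), Coherent c₀ ∧ Ref (t0 G q) c₀ ∧
      (Set.range (fun p : V × V => c₀ p.1 p.2)).ncard ≤ R ∧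
      ∀ x y x' y', c₀ x y = c₀ x' y' → (G.Adj x y ↔ G.Adj x' y') := by
  have hT := fun q => hTCP V G q 0 (fun i => i.elim0)
  have hcs : ∀ q, CS (t0 G q) := fun q => (hT q).1
  have hst : ∀ q, Stp (t0 G (q + 1)) (t0 G q) := fun q => (hT q).2.1
  have hiv : ∀ q, Inv (t0 G q) G.Adj := fun q => (hT q).2.2.1
  have hmono : ∀ q, Ref (jn (t0 G (q + 1)) c) (jn (t0 G q) c) := by
    intro q x y x' y' h
    exact jn_key (t0 G (q + 1)) c (jn (t0 G q) c)
      (fun x y x' y' h => jn_left _ _ _ _ _ _ ((hst q).1 _ _ _ _ h))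
      (fun x y x' y' h => jn_right _ _ _ _ _ _ h) x y x' y' h
  have hle : ∀ q, (Set.range (fun p : V × V => jn (t0 G q) c p.1 p.2)).ncard ≤ R :=
    fun q => (ncard_ref c (jn (t0 G q) c) (jn_right _ _)).trans hr
  obtain ⟨q, hq, hst2⟩ : ∃ q ≤ R, Ref (jn (t0 G q) c) (jn (t0 G (q + 1)) c) := by
    by_contra hcon
    push Not at hcon
    have hgrow : ∀ q, q ≤ R + 1 →
        q ≤ (Set.range (fun p : V × V => jn (t0 G q) c p.1 p.2)).ncard := by
      intro q
      induction q with
      | zero => intro _; exact Nat.zero_le _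
      | succ q ih =>
        intro hq
        have h1 := ih (by omega)
        by_contra h2
        exact hcon q (by omega) (ref_of_ncard _ _ (hmono q) (by omega))
    have h1 := hgrow (R + 1) le_rfl
    have h2 := hle (R + 1)
    omega
  refine ⟨q, hq, _, jn (t0 G q) c, ⟨?_, ?_, ?_⟩, jn_left _ _, hle q, ?_⟩
  · intro x y z h
    have := jn_key (t0 G q) c (fun x y => x = y)
      (fun x y x' y' h => propext ⟨fun e => by subst e; exact (hcs q).diag _ _ _ h,
        fun e => by subst e; exact (hcs q).diag _ _ _ h.symm⟩)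
      (fun x y x' y' h => propext ⟨fun e => by subst e; exact hc.diag _ _ _ h,
        fun e => by subst e; exact hc.diag _ _ _ h.symm⟩) x x y z h
    exact this.mp rfl
  · intro x y x' y' h
    exact jn_key (t0 G q) c (fun x y => jn (t0 G q) c y x)
      (fun x y x' y' h => jn_left _ _ _ _ _ _ ((hcs q).val _ _ _ _ h).2.2)
      (fun x y x' y' h => jn_right _ _ _ _ _ _ (hc.symm _ _ _ _ h)) x y x' y' h
  · intro x y x' y' h i j
    refine jn_key (t0 G (q + 1)) c
      (fun x y => Nat.card {z : V // jn (t0 G q) c x z = i ∧ jn (t0 G q) c z y = j})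
      ?_ ?_ x y x' y' (hst2 _ _ _ _ h)
    · intro x y x' y' h
      obtain ⟨e, he⟩ := (hst q).2 x y x' y' h
      refine Nat.card_congr (Equiv.subtypeEquiv e fun z => ?_)
      rw [jn_left _ _ _ _ _ _ (he z).1, jn_left _ _ _ _ _ _ (he z).2]
    · intro x y x' y' h
      obtain ⟨e, he⟩ := hCNT V κ c hc x y x' y' h
      refine Nat.card_congr (Equiv.subtypeEquiv e fun z => ?_)
      rw [jn_right _ _ _ _ _ _ (he z).1, jn_right _ _ _ _ _ _ (he z).2]
  · intro x y x' y' h
    have := jn_key (t0 G q) c G.Adj (fun x y x' y' h => propext (hiv q x y x' y' h))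
      (fun x y x' y' h => propext (hG x y x' y' h)) x y x' y' h
    exact iff_of_eq this

end Pool.Agent.BRD
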