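import Mathlib
import Pool.Agent.BRW.Defs
import Pool.Agent.BRW.St
import Pool.Agent.BRW.LSD
import Pool.Agent.BRW.MSsd
import Pool.Agent.BRW.MTwo

set_option autoImplicit false

/-!
# Bounded rank and quantifier depth: two pairs of non-small colours have the same colour

As `LSD`, `SSD`, `TWO` of `Pool/Agent/BRW`, for a colouring `c'` that need not be coherent: it is
enough that there is a bijection `e` with `c' (e u) z₁ = c' u z`.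
-/

namespace Pool.Agent.BRD

open Pool.Agent.BRW

theorem lsd2 (hCNT : StmtCNT) (hVAL : StmtVAL) (hCLA : StmtCLA) (hCLB : StmtCLB)
    (hCLF : StmtCLF) {V κ κ' : Type} [Finite V] (c : V → V → κ) (c' : V → V → κ') (ℓ r : ℕ)
    (x₀ y₀ : V) (hc : Coherent c)
    (hdg : ∀ x y x' y', c' x y = c' x' y' → c' x x = c' x' x')
    (href : ∀ x y x' y', c' x y = c' x' y' → c x y = c x' y')
    (hrows : Rows c r) (hgap : Gap c ℓ) (hℓ : 100 * (r + 1) ^ 2 ≤ ℓ) (hLB : LB c ℓ x₀ y₀)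
    (hfib : ∀ x y, c x x = c x₀ x₀ → c' x x = c' y y → EE c x₀ y₀ x y)
    (x x₁ z z₁ : V) (hx : c x x = c x₀ x₀) (hxx : c' x x = c' x₁ x₁)
    (hzz : ∃ e : V ≃ V, ∀ u, c' (e u) z₁ = c' u z) (hv : ℓ < val c x z)
    (hv₁ : ℓ < val c x₁ z₁) : c x z = c x₁ z₁ := by
  have hℓ100 : 100 ≤ ℓ := by
    have h1 : 1 ≤ (r + 1) ^ 2 := Nat.one_le_pow 2 (r + 1) (Nat.succ_pos r)
    omega
  obtain ⟨cA1, cA2, cA3, cA4, -⟩ := hCLA V κ c ℓ x₀ y₀ hc hℓ100 hLB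
  obtain ⟨-, cB2⟩ := hCLB V κ c ℓ x₀ y₀ hc hℓ100 hLB
  obtain ⟨-, -, v3, -⟩ := hVAL V κ c hc
  have hEx : EE c x₀ y₀ x x₁ := hfib x x₁ hx hxx
  have hEx' : EE c x₀ y₀ x₁ x := (cA3 x x₁ hEx).1
  have hx₁ : c x₁ x₁ = c x₀ x₀ := (cA3 x₁ x hEx').2
  obtain ⟨q, hq⟩ := hCLF V κ c ℓ r x₀ y₀ hc hrows hgap hℓ hLB x z hx
  obtain ⟨q₁, hq₁⟩ := hCLF V κ c ℓ r x₀ y₀ hc hrows hgap hℓ hLB x₁ z₁ hx₁
  rw [lsd_step hCNT hVAL hCLA c ℓ x₀ y₀ hc hℓ100 hLB x z hx hv q hq,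
    lsd_step hCNT hVAL hCLA c ℓ x₀ y₀ hc hℓ100 hLB x₁ z₁ hx₁ hv₁ q₁ hq₁]
  by_contra hne
  have few : ∀ (a b : V) (p : κ), (∀ u v, EE c x₀ y₀ a u → EE c x₀ y₀ a v → c u b ≠ p →
      c v b ≠ p → c u v ≠ c x₀ y₀) → {u : V | EE c x₀ y₀ a u ∧ c u b ≠ p}.ncard ≤ ℓ := by
    intro a b p hp
    rcases Set.eq_empty_or_nonempty {u : V | EE c x₀ y₀ a u ∧ c u b ≠ p} with h0 | ⟨u, hu, hup⟩
    · rw [h0, Set.ncard_empty]; exact Nat.zero_le _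
    · refine le_trans ?_ (cB2 u)
      have hsub : {v : V | EE c x₀ y₀ a v ∧ c v b ≠ p} ⊆
          {v : V | EE c x₀ y₀ u v ∧ c u v ≠ c x₀ y₀} := by
        rintro v ⟨hv1, hv2⟩
        exact ⟨cA4 u a v (cA3 a u hu).1 hv1, hp u v hu hv1 hup hv2⟩
      exact (Set.ncard_le_ncard hsub (Set.toFinite _)).trans_eq (Nat.card_coe_set_eq _).symm
  have big : ℓ ^ 4 < {u : V | EE c x₀ y₀ x u}.ncard := by
    have h1 : Nat.card {w : V // c x w = c x₀ y₀} = val c x₀ y₀ := v3 x₀ y₀ x hx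
    have h2 : {w : V | c x w = c x₀ y₀} ⊆ {u : V | EE c x₀ y₀ x u} :=
      fun w hw => (cA1 x w hw).2.2
    have h3 := Set.ncard_le_ncard h2 (Set.toFinite _)
    have h4 : Nat.card {w : V // c x w = c x₀ y₀} = {w : V | c x w = c x₀ y₀}.ncard :=
      Nat.card_coe_set_eq _
    have h5 := hLB.2
    omega
  have f1 := few x z q hq
  have f2 := few x₁ z₁ q₁ hq₁
  obtain ⟨e, he⟩ := hzz
  have f3 : {u : V | EE c x₀ y₀ x u ∧ c u z = q}.ncard ≤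
      {u : V | EE c x₀ y₀ x₁ u ∧ c u z₁ ≠ q₁}.ncard := by
    refine Set.ncard_le_ncard_of_injOn e ?_ e.injective.injOn (Set.toFinite _)
    rintro u ⟨hu, huq⟩
    have h1 : c' (e u) z₁ = c' u z := he u
    have h2 : c (e u) z₁ = c u z := href _ _ _ _ h1
    have h3 : c' (e u) (e u) = c' u u := hdg _ _ _ _ h1
    have h4 : c u u = c x₀ x₀ := (cA3 u x (cA3 x u hu).1).2
    refine ⟨cA4 x₁ x _ hEx' (cA4 x u _ hu (hfib u (e u) h4 h3.symm)), ?_⟩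
    rw [h2, huq]
    exact hne
  have f4 : {u : V | EE c x₀ y₀ x u}.ncard ≤ {u : V | EE c x₀ y₀ x u ∧ c u z = q}.ncard +
      {u : V | EE c x₀ y₀ x u ∧ c u z ≠ q}.ncard := by
    refine le_trans (Set.ncard_le_ncard ?_ (Set.toFinite _)) (Set.ncard_union_le _ _)
    intro u hu
    by_cases h : c u z = q
    · exact Or.inl ⟨hu, h⟩
    · exact Or.inr ⟨hu, h⟩
  have h7 : 2 * ℓ ≤ ℓ ^ 4 := by
    have : ℓ * 2 ≤ ℓ * ℓ ^ 3 := by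
      refine Nat.mul_le_mul_left _ ?_
      have : ℓ ^ 3 ≥ ℓ := Nat.le_self_pow (by norm_num) _
      omega
    calc 2 * ℓ = ℓ * 2 := mul_comm _ _
      _ ≤ ℓ * ℓ ^ 3 := this
      _ = ℓ ^ 4 := by ring
  omega

theorem ssd2 (hCNT : StmtCNT) (hVAL : StmtVAL) {V κ κ' : Type} [Finite V] (c : V → V → κ)
    (c' : V → V → κ') (ℓ : ℕ) (hc : Coherent c)
    (hdg : ∀ x y x' y', c' x y = c' x' y' → c' x x = c' x' x')
    (href : ∀ x y x' y', c' x y = c' x' y' → c x y = c x' y')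
    (hg : Gap c ℓ) (hl : 100 ≤ ℓ) (hbad : ∀ x y, x ≠ y → c' x x = c' y y → Bad c ℓ x y)
    (x x₁ z z₁ : V) (hLB : ∀ x₀ y₀, c x₀ x₀ = c x x → ¬ LB c ℓ x₀ y₀)
    (hx : c' x x = c' x₁ x₁) (hz : ∃ e : V ≃ V, ∀ u, c' (e u) z₁ = c' u z)
    (h2 : ℓ < val c x₁ z₁) : c x z = c x₁ z₁ := by
  obtain ⟨e, he⟩ := hz
  have h3 : c (e x) z₁ = c x z := href _ _ _ _ (he x)
  have h4 : c' (e x) (e x) = c' x x := hdg _ _ _ _ (he x)
  have h5 : c x₁ x₁ = c x x := (href _ _ _ _ hx).symm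
  have h6 : c (e x) z₁ = c x₁ z₁ := by
    refine ssd_fib hCNT hVAL c ℓ hc hg hl x₁ (e x) z₁ (fun x₀ y₀ h => ?_) (fun hne => ?_) h2
    · exact hLB x₀ y₀ (h.trans h5)
    · exact hbad _ _ hne (hx.symm.trans h4.symm)
  rw [← h3, h6]

/-- The case of two large valencies (seen from `x` and `x₁`). -/
theorem two2_aux (hCNT : StmtCNT) (hVAL : StmtVAL) (hCLA : StmtCLA) (hCLB : StmtCLB)
    (hCLF : StmtCLF) {V κ κ' : Type} [Finite V] {c : V → V → κ} {c' : V → V → κ'} {ℓ r : ℕ}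
    (hc : Coherent c) (hdg : ∀ x y x' y', c' x y = c' x' y' → c' x x = c' x' x')
    (href : ∀ x y x' y', c' x y = c' x' y' → c x y = c x' y')
    (hr : Rows c r) (hg : Gap c ℓ) (hℓ : 100 * (r + 1) ^ 2 ≤ ℓ)
    (hbad : ∀ x y, x ≠ y → c' x x = c' y y → Bad c ℓ x y)
    (x x₁ z z₁ : V) (hx : c' x x = c' x₁ x₁) (hz : ∃ e : V ≃ V, ∀ u, c' (e u) z₁ = c' u z)
    (h : ℓ < val c x z) (h₁ : ℓ < val c x₁ z₁) : c x z = c x₁ z₁ := by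
  have h100 : 100 ≤ ℓ := by
    have h1 : 1 ≤ (r + 1) ^ 2 := Nat.one_le_pow _ _ (Nat.succ_pos r)
    omega
  by_cases hLB : ∃ x₀ y₀ : V, c x₀ x₀ = c x x ∧ LB c ℓ x₀ y₀
  · obtain ⟨x₀, y₀, hx₀, hlb⟩ := hLB
    obtain ⟨-, hrefl, -, -, -, hb, -⟩ := hCLA V κ c ℓ x₀ y₀ hc h100 hlb
    refine lsd2 hCNT hVAL hCLA hCLB hCLF c c' ℓ r x₀ y₀ hc hdg href hr hg hℓ hlb ?_ x x₁ z z₁
      hx₀.symm hx hz h h₁
    intro u v hu huv
    by_cases huv' : u = v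
    · rw [← huv']
      exact hrefl u hu
    · exact hb u v hu (hbad u v huv' huv)
  · refine ssd2 hCNT hVAL c c' ℓ hc hdg href hg h100 hbad x x₁ z z₁ ?_ hx hz h₁
    intro x₀ y₀ hx₀ hlb
    exact hLB ⟨x₀, y₀, hx₀, hlb⟩

/-- TWO for two levels of types. -/
theorem two2 (hCNT : StmtCNT) (hVAL : StmtVAL) (hCLA : StmtCLA) (hCLB : StmtCLB)
    (hCLF : StmtCLF) {V κ κ' : Type} [Finite V] (c : V → V → κ) (c' : V → V → κ') (ℓ r : ℕ)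
    (hc : Coherent c) (hdg : ∀ x y x' y', c' x y = c' x' y' → c' x x = c' x' x')
    (href : ∀ x y x' y', c' x y = c' x' y' → c x y = c x' y')
    (hr : Rows c r) (hg : Gap c ℓ) (hℓ : 100 * (r + 1) ^ 2 ≤ ℓ)
    (hbad : ∀ x y, x ≠ y → c' x x = c' y y → Bad c ℓ x y)
    (x x₁ z z₁ : V) (hx : c' x x = c' x₁ x₁) (hz : c' z z = c' z₁ z₁)
    (hxe : ∃ e : V ≃ V, ∀ u, c' (e u) x₁ = c' u x)
    (hze : ∃ e : V ≃ V, ∀ u, c' (e u) z₁ = c' u z) (h : ¬ Sm c ℓ x z)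
    (h₁ : ¬ Sm c ℓ x₁ z₁) : c x z = c x₁ z₁ := by
  have h100 : 100 ≤ ℓ := by
    have h1 : 1 ≤ (r + 1) ^ 2 := Nat.one_le_pow _ _ (Nat.succ_pos r)
    omega
  obtain ⟨-, -, -, hval⟩ := hVAL V κ c hc
  have hA := fun x x₁ z z₁ =>
    two2_aux hCNT hVAL hCLA hCLB hCLF hc hdg href hr hg hℓ hbad x x₁ z z₁
  have hA1 := hA x x₁ z z₁ hx hze
  have hB1 : ℓ < val c z x → ℓ < val c z₁ x₁ → c x z = c x₁ z₁ := fun h h₁ =>
    hc.symm z x z₁ x₁ (hA z z₁ x x₁ hz hxe h h₁)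
  have h' : ¬ (val c x z ≤ ℓ ∧ val c z x ≤ ℓ) := h
  have h₁' : ¬ (val c x₁ z₁ ≤ ℓ ∧ val c z₁ x₁ ≤ ℓ) := h₁
  have cx : c x x = c x₁ x₁ := href _ _ _ _ hx
  have cz : c z z = c z₁ z₁ := href _ _ _ _ hz
  by_cases p : ℓ < val c x z
  · by_cases p₁ : ℓ < val c x₁ z₁
    · exact hA1 p p₁
    · have q₁ : ℓ < val c z₁ x₁ := by
        by_contra hq
        exact h₁' ⟨not_lt.1 p₁, not_lt.1 hq⟩
      by_cases q : ℓ < val c z x
      · exact hB1 q q₁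
      · exact (two_mix hval hg h100 x x₁ z z₁ cx cz p (not_lt.1 q) (not_lt.1 p₁) q₁).elim
  · have q : ℓ < val c z x := by
      by_contra hq
      exact h' ⟨not_lt.1 p, not_lt.1 hq⟩
    by_cases q₁ : ℓ < val c z₁ x₁
    · exact hB1 q q₁
    · have p₁ : ℓ < val c x₁ z₁ := by
        by_contra hp
        exact h₁' ⟨not_lt.1 hp, not_lt.1 q₁⟩
      exact (two_mix hval hg h100 x₁ x z₁ z cx.symm cz.symm p₁ (not_lt.1 q₁)
        (not_lt.1 p) q).elim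

end Pool.Agent.BRD
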