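import Mathlib
import Pool.Agent.BRW.Defs
import Pool.Agent.BRW.St
import Pool.Agent.BRW.St2
import Pool.Agent.DQE.Defs
import Pool.Agent.DQE.St
import Pool.Agent.DQE.MLst
import Pool.Agent.BRD.Two
import Pool.Agent.BRD.Jod

set_option autoImplicit false

/-!
# Bounded rank and quantifier depth: the theorem for `DId`
-/

namespace Pool.Agent.BRD

open Pool.Agent.BRW Pool.Agent.WLE Pool.Agent.DQE

theorem sm_card {V κ : Type} [Finite V] (c : V → V → κ) (ℓ r : ℕ)
    (hc : Coherent c) (hr : Rows c r) (x : V) :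
    Nat.card {y : V // Sm c ℓ x y} ≤ (r - 1) * ℓ + 1 := by
  classical
  have := Fintype.ofFinite V
  have hcard : ∀ p : V → Prop, Nat.card {w : V // p w} = (Finset.univ.filter p).card := by
    intro p
    rw [Nat.card_eq_fintype_card, Fintype.card_subtype]
  rw [hcard]
  have h1 : ((Finset.univ.filter (fun y => Sm c ℓ x y)).erase x).card ≤
      ℓ * (((Finset.univ.filter (fun y => Sm c ℓ x y)).erase x).image (c x)).card := by
    refine Finset.card_le_mul_card_image _ _ ?_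
    intro a ha
    rw [Finset.mem_image] at ha
    obtain ⟨y, hy, rfl⟩ := ha
    rw [Finset.mem_erase, Finset.mem_filter] at hy
    refine (Finset.card_le_card ?_).trans
      ((hcard (fun w => c x w = c x y)).symm.le.trans hy.2.2.1)
    intro w hw
    rw [Finset.mem_filter] at hw
    rw [Finset.mem_filter]
    exact ⟨Finset.mem_univ _, hw.2⟩
  have h2 : (((Finset.univ.filter (fun y => Sm c ℓ x y)).erase x).image (c x)).card ≤ r - 1 := by
    have h3 : insert (c x x) ((((Finset.univ.filter (fun y => Sm c ℓ x y)).erase x).image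
        (c x) : Finset κ) : Set κ) ⊆ Set.range (c x) := by
      intro q hq
      rcases hq with rfl | hq
      · exact ⟨x, rfl⟩
      · rw [Finset.coe_image] at hq
        obtain ⟨y, -, rfl⟩ := hq
        exact ⟨y, rfl⟩
    have h4 : c x x ∉ ((((Finset.univ.filter (fun y => Sm c ℓ x y)).erase x).image
        (c x) : Finset κ) : Set κ) := by
      intro h
      rw [Finset.coe_image] at h
      obtain ⟨y, hy, hxy⟩ := h
      rw [Finset.mem_coe, Finset.mem_erase] at hy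
      exact hy.1 (hc.diag x x y hxy.symm).symm
    have h5 := Set.ncard_le_ncard h3 (Set.finite_range _)
    rw [Set.ncard_insert_of_notMem h4 (Set.toFinite _), Set.ncard_coe_finset] at h5
    have h6 := hr x
    omega
  have h3 : (Finset.univ.filter (fun y => Sm c ℓ x y)).card ≤
      ((Finset.univ.filter (fun y => Sm c ℓ x y)).erase x).card + 1 := by
    have := Finset.pred_card_le_card_erase (s := Finset.univ.filter (fun y => Sm c ℓ x y))
      (a := x)
    omega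
  calc _ ≤ _ := h3
    _ ≤ ℓ * (r - 1) + 1 := Nat.add_le_add_right (h1.trans (Nat.mul_le_mul_left _ h2)) 1
    _ = (r - 1) * ℓ + 1 := by rw [Nat.mul_comm]

theorem two_eq {V : Type} {t : ℕ} (a : Fin t → V) (σ : Fin (0 + 2) → Fin t) (x y : V)
    (h0 : a (σ 0) = x) (h1 : a (σ 1) = y) :
    (fun i => a (σ i)) = sn (sn (fun i : Fin 0 => i.elim0) x) y := by
  funext i
  have : i = 0 ∨ i = 1 := by
    rcases i with ⟨i, hi⟩
    have : i = 0 ∨ i = 1 := by omega
    rcases this with rfl | rfl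
    · exact Or.inl rfl
    · exact Or.inr rfl
  rcases this with rfl | rfl
  · rw [h0]
    rfl
  · rw [h1]
    rfl

theorem forget (hGAM : StmtGAM) (hTCP : StmtTCP) {V : Type} (G : SimpleGraph V) (q t : ℕ)
    (s : Fin t → V) : Ref (tc G q t s) (t0 G q) := by
  intro x y x' y' h
  have h1 := ((hTCP V G q t s).2.2.2.1 x y x' y').1 h
  have h2 := hGAM.2.1 V V G G q (t + 2) (0 + 2) _ _
    (fun i => if i = 0 then (Fin.last t).castSucc else Fin.last (t + 1)) h1
  refine ((hTCP V G q 0 _).2.2.2.1 x y x' y').2 ?_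
  rw [two_eq (sn (sn s x) y) (fun i => if i = 0 then (Fin.last t).castSucc
      else Fin.last (t + 1)) x y (by simp [sn]) (by simp [sn]),
    two_eq (sn (sn s x') y') (fun i => if i = 0 then (Fin.last t).castSucc
      else Fin.last (t + 1)) x' y' (by simp [sn]) (by simp [sn])] at h2
  exact h2

theorem param (hGAM : StmtGAM) (hTCP : StmtTCP) {V : Type} (G : SimpleGraph V) (q t : ℕ)
    (s : Fin t → V) (i : Fin t) (x y : V) (h : tc G q t s x x = tc G q t s y y) :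
    t0 G q (s i) x = t0 G q (s i) y := by
  have h1 := ((hTCP V G q t s).2.2.2.1 x x y y).1 h
  have h2 := hGAM.2.1 V V G G q (t + 2) (0 + 2) _ _
    (fun j => if j = 0 then i.castSucc.castSucc else Fin.last (t + 1)) h1
  refine ((hTCP V G q 0 _).2.2.2.1 (s i) x (s i) y).2 ?_
  rw [two_eq (sn (sn s x) x) (fun j => if j = 0 then i.castSucc.castSucc
      else Fin.last (t + 1)) (s i) x (by simp [sn]) (by simp [sn]),
    two_eq (sn (sn s y) y) (fun j => if j = 0 then i.castSucc.castSucc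
      else Fin.last (t + 1)) (s i) y (by simp [sn]) (by simp [sn])] at h2
  exact h2

/-- Bounded rank gives sublinear depth. -/
def StmtBRD : Prop :=
  ∃ A N : ℕ, ∀ (V κ : Type) [Fintype V] (G : SimpleGraph V) (c : V → V → κ) (R : ℕ),
    N ≤ Fintype.card V →
    (A : ℝ) * (R : ℝ) ≤ Real.log (Real.log (Fintype.card V : ℝ)) →
    Coherent c → (Set.range (fun p : V × V => c p.1 p.2)).ncard ≤ R →
    (∀ x y x' y', c x y = c x' y' → (G.Adj x y ↔ G.Adj x' y')) →
    ∃ k : ℕ, (k : ℝ) ≤ (Fintype.card V : ℝ) ^ (1 - 1 / (4 : ℝ) ^ (2 * R + 2)) ∧ DId k G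

theorem brd (hGAM : StmtGAM) (hTCP : StmtTCP) (hCLL : StmtCLL) (hCNT : StmtCNT)
    (hVAL : StmtVAL) (hCLA : StmtCLA) (hCLB : StmtCLB) (hCLF : StmtCLF) (hEQV : StmtEQV)
    (hGAP2 : StmtGAP2) (hHIT : StmtHIT) (hNUM2 : StmtNUM2) : StmtBRD := by
  obtain ⟨A, N, hN⟩ := hNUM2
  refine ⟨A, max N 1, ?_⟩
  intro V κ _ G c R hcard hAR hc hr hG
  have hcard1 : N ≤ Fintype.card V := le_trans (le_max_left _ _) hcard
  have hcard2 : 1 ≤ Fintype.card V := le_trans (le_max_right _ _) hcard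
  obtain ⟨v⟩ : Nonempty V := Fintype.card_pos_iff.1 hcard2
  have hR1 : 1 ≤ R := by
    refine le_trans ?_ hr
    rw [Nat.one_le_iff_ne_zero, ← Nat.pos_iff_ne_zero, Set.ncard_pos (Set.finite_range _)]
    exact ⟨_, ⟨(v, v), rfl⟩⟩
  obtain ⟨m, hm, hj⟩ := hN R (Fintype.card V) hcard1 hAR
  set k : ℕ := ⌊(Fintype.card V : ℝ) ^ (1 - 1 / (4 : ℝ) ^ (2 * R + 2))⌋₊ with hkdef
  refine ⟨k, Nat.floor_le (by positivity), ?_⟩
  obtain ⟨q, hq, κ₀, c₀, hc0, hc01, hrank0, hadj⟩ := jod hTCP hCNT G c R hc hr hG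
  have hr0 : Rows c₀ R := by
    intro x
    refine le_trans (Set.ncard_le_ncard ?_ (Set.finite_range _)) hrank0
    rintro i ⟨y, rfl⟩
    exact ⟨(x, y), rfl⟩
  have hm2 : 2 ≤ m := by nlinarith [Nat.zero_le R]
  obtain ⟨j, hjr, hgap⟩ := hGAP2 V κ₀ c₀ R m hc0 hrank0 hm2
  set ℓ : ℕ := m ^ 4 ^ j with hℓ
  have hmℓ : m ≤ ℓ := by
    rw [hℓ]
    exact Nat.le_self_pow (by positivity) m
  have hℓ1 : 100 * (R + 1) ^ 2 ≤ ℓ := le_trans hm hmℓ
  have hℓ2 : 100 ≤ ℓ := by nlinarith [Nat.zero_le R]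
  obtain ⟨t, hthit, htk⟩ := hj j hjr
  obtain ⟨s, hs⟩ := hHIT V (fun x y => {z : V | c₀ z x ≠ c₀ z y}) (ℓ ^ 4) t
    (by rw [Nat.card_eq_fintype_card]; exact hthit)
  have href : ∀ x y x' y', tc G q t s x y = tc G q t s x' y' → c₀ x y = c₀ x' y' :=
    fun x y x' y' h => hc01 x y x' y' (forget hGAM hTCP G q t s x y x' y' h)
  have hbad : ∀ x y, x ≠ y → tc G q t s x x = tc G q t s y y → Bad c₀ ℓ x y := by
    intro x y hxy h
    refine ⟨hxy, href x x y y h, ?_⟩
    rcases hgap.2 x y (href x x y y h) with h1 | h1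
    · exact h1
    · exfalso
      have h2 : ℓ ^ 4 ≤ ({z : V | c₀ z x ≠ c₀ z y} : Set V).ncard := le_of_lt h1
      obtain ⟨i, hi⟩ := hs x y h2
      exact hi (hc01 _ _ _ _ (param hGAM hTCP G q t s i x y h))
  obtain ⟨hE, -, hEinv⟩ := hEQV V κ₀ c₀ ℓ R hc0 hr0 hgap hℓ2
  have hsm := sm_card c₀ ℓ R hc0 hr0
  have hcs := (hTCP V G q t s).1
  have hst := (hTCP V G q t s).2.1
  -- pairs that are not small: the adjacency depends only on the fibres
  have hcross : ∀ x z x1 z1 : V, tc G (q + 1) t s x x = tc G (q + 1) t s x1 x1 →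
      tc G (q + 1) t s z z = tc G (q + 1) t s z1 z1 → ¬ Sm c₀ ℓ x z → ¬ Sm c₀ ℓ x1 z1 →
      (G.Adj x z ↔ G.Adj x1 z1) := by
    intro x z x1 z1 hx hz h h1
    refine hadj x z x1 z1 (two2 hCNT hVAL hCLA hCLB hCLF c₀ (tc G q t s) ℓ R hc0
      (fun x y x' y' h => (hcs.val x y x' y' h).1) href hr0 hgap hℓ1 hbad x x1 z z1
      (hst.1 _ _ _ _ hx) (hst.1 _ _ _ _ hz) ?_ ?_ h h1)
    · obtain ⟨e, he⟩ := hst.2 x x x1 x1 hx
      exact ⟨e, fun u => (he u).2.symm⟩
    · obtain ⟨e, he⟩ := hst.2 z z z1 z1 hz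
      exact ⟨e, fun u => (he u).2.symm⟩
  let D : V → V → Prop := fun x y => ∃ u w : V, tc G (q + 1) t s u u = tc G (q + 1) t s x x ∧
    tc G (q + 1) t s w w = tc G (q + 1) t s y y ∧ ¬ Sm c₀ ℓ u w ∧ G.Adj u w
  have hDs : ∀ x y, D x y → D y x := by
    rintro x y ⟨u, w, h1, h2, h3, h4⟩
    exact ⟨w, u, h2, h1, fun h => h3 (hE.symm h), h4.symm⟩
  have hDf : ∀ x y x' y', tc G (q + 1) t s x x = tc G (q + 1) t s x' x' →
      tc G (q + 1) t s y y = tc G (q + 1) t s y' y' → (D x y ↔ D x' y') := by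
    intro x y x' y' hx hy
    constructor
    · rintro ⟨u, w, h1, h2, h3, h4⟩
      exact ⟨u, w, h1.trans hx, h2.trans hy, h3, h4⟩
    · rintro ⟨u, w, h1, h2, h3, h4⟩
      exact ⟨u, w, h1.trans hx.symm, h2.trans hy.symm, h3, h4⟩
  have hX : ∀ x y, (x ≠ y ∧ ¬ (G.Adj x y ↔ D x y)) → Sm c₀ ℓ x y := by
    rintro x y ⟨-, h⟩
    by_contra hsxy
    refine h ⟨fun h1 => ⟨x, y, rfl, rfl, hsxy, h1⟩, ?_⟩
    rintro ⟨u, w, h1, h2, h3, h4⟩
    exact (hcross u w x y h1 h2 h3 hsxy).1 h4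
  have hcell : ∀ x, Nat.card {y : V // Relation.ReflTransGen
      (fun u v => u ≠ v ∧ ¬ (G.Adj u v ↔ D u v)) x y} ≤ (R - 1) * ℓ + 1 := by
    intro x
    refine le_trans ?_ (hsm x)
    have hsub : ∀ y, Relation.ReflTransGen
        (fun u v => u ≠ v ∧ ¬ (G.Adj u v ↔ D u v)) x y → Sm c₀ ℓ x y := by
      intro y h
      induction h with
      | refl => exact hE.refl x
      | tail _ h1 ih => exact hE.trans ih (hX _ _ h1)
    exact Nat.card_le_card_of_injective
      (fun y : {y : V // Relation.ReflTransGen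
        (fun u v => u ≠ v ∧ ¬ (G.Adj u v ↔ D u v)) x y} =>
        (⟨y.1, hsub y.1 y.2⟩ : {y : V // Sm c₀ ℓ x y}))
      (fun a b h => Subtype.ext (congrArg (fun t => t.1) h))
  have hfin := hCLL V G t (q + 1) ((R - 1) * ℓ + 1) s D hDs hDf hcell
  have hle : t + (q + 1) + ((R - 1) * ℓ + 1) + 3 ≤ k := by
    have h1 : (R - 1) * ℓ + ℓ = R * ℓ := by
      obtain ⟨R', rfl⟩ : ∃ R', R = R' + 1 := ⟨R - 1, by omega⟩
      simp only [Nat.add_sub_cancel]
      ring
    have h2 : q + 2 ≤ ℓ := by nlinarith [Nat.zero_le R]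
    have h3 : t + R * ℓ + 3 ≤ k := htk
    omega
  obtain ⟨d, hd⟩ := Nat.exists_eq_add_of_le hle
  rw [hd]
  exact MLst92.did_mono hGAM G _ d hfin

end Pool.Agent.BRD
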